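import Pool.Agent.W619.Y.Stm4
import Pool.Agent.W619.TW.Der
import Pool.Agent.W619.PQ.Alg

/-! The numerical dimension of the product with a curve (part ONE of project PG). -/

set_option autoImplicit false
set_option linter.overlappingInstances false
set_option linter.unusedSectionVars false

universe u v

open FF IntermediateField Pool.Agent.W619.PQ Pool.Agent.W619.PL Pool.Agent.W619.TW
  Pool.Agent.W603.LV Pool.Agent.W619.Y

namespace Pool.Agent.W460.PG.ONE

section dom

variable {k : Type*} {K : Type*} [Field k] [Field K] [Algebra k K]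

theorem dom_zero (v : Place k K) (S : Finset K) (j : ℕ) : Dom v S j 0 := Or.inl rfl

theorem dom_add (v : Place k K) (S : Finset K) (j : ℕ) {f g : K} (hf : Dom v S j f)
    (hg : Dom v S j g) : Dom v S j (f + g) := by
  by_cases hf0 : f = 0
  · rw [hf0, zero_add]; exact hg
  by_cases hg0 : g = 0
  · rw [hg0, add_zero]; exact hf
  by_cases hfg : f + g = 0
  · exact Or.inl hfg
  obtain ⟨s, hs, hs0, h1⟩ := hf.resolve_left hf0
  obtain ⟨s', hs', hs0', h2⟩ := hg.resolve_left hg0
  have h3 : min (v.ord f) (v.ord g) ≤ v.ord (f + g) := v.ord_add hf0 hg0 hfg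
  rcases le_total (v.ord f) (v.ord g) with h | h
  · right
    refine ⟨s, hs, hs0, h1.trans ?_⟩
    rw [min_eq_left h] at h3
    exact h3
  · right
    refine ⟨s', hs', hs0', h2.trans ?_⟩
    rw [min_eq_right h] at h3
    exact h3

theorem dom_smul (v : Place k K) (S : Finset K) (j : ℕ) (c : k) {f : K} (hf : Dom v S j f) :
    Dom v S j (c • f) := by
  by_cases hc : c = 0
  · left; rw [hc, zero_smul]
  by_cases hf0 : f = 0
  · left; rw [hf0, smul_zero]
  obtain ⟨s, hs, hs0, h1⟩ := hf.resolve_left hf0
  right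
  refine ⟨s, hs, hs0, ?_⟩
  have hc' : algebraMap k K c ≠ 0 := by
    rw [Ne, map_eq_zero]; exact hc
  rw [Algebra.smul_def, v.ord_mul hc' hf0, v.ord_const hc, zero_add]
  exact h1

variable {n : ℕ} {Bd : Place k K → Prop} {S : Finset K} {m j : ℕ}

theorem sec_zero : IsSec k K n Bd S m j (fun _ => 0) := by
  refine ⟨fun A D => ?_, fun v _ _ D _ => dom_zero _ _ _, fun v _ _ D _ => dom_zero _ _ _⟩
  rw [mul_zero]

theorem sec_add {ω ω' : (Fin n → Derivation k K K) → K} (h : IsSec k K n Bd S m j ω)
    (h' : IsSec k K n Bd S m j ω') : IsSec k K n Bd S m j (fun D => ω D + ω' D) := by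
  refine ⟨fun A D => ?_, fun v h1 h2 D hD => ?_, fun v h1 h2 D hD => ?_⟩
  · change ω _ + ω' _ = _
    rw [h.1 A D, h'.1 A D, mul_add]
  · exact dom_add _ _ _ (h.2.1 v h1 h2 D hD) (h'.2.1 v h1 h2 D hD)
  · exact dom_add _ _ _ (h.2.2 v h1 h2 D hD) (h'.2.2 v h1 h2 D hD)

theorem sec_smul (c : k) {ω : (Fin n → Derivation k K K) → K} (h : IsSec k K n Bd S m j ω) :
    IsSec k K n Bd S m j (fun D => c • ω D) := by
  refine ⟨fun A D => ?_, fun v h1 h2 D hD => ?_, fun v h1 h2 D hD => ?_⟩
  · change c • ω _ = _
    rw [h.1 A D, mul_smul_comm]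
  · exact dom_smul _ _ _ _ (h.2.1 v h1 h2 D hD)
  · exact dom_smul _ _ _ _ (h.2.2 v h1 h2 D hD)

/-- The space of coefficients of sections. -/
def VV (k : Type*) {K : Type*} [Field k] [Field K] [Algebra k K] {n : ℕ} (Bd : Place k K → Prop)
    (S : Finset K) (m j : ℕ) (y : Fin n → K) : Submodule k K where
  carrier := {μ | IsSec k K n Bd S m j
    (fun D => μ * (Matrix.of fun a b => D a (y b)).det ^ m)}
  zero_mem' := by
    have h : (fun D : Fin n → Derivation k K K =>
        (0 : K) * (Matrix.of fun a b => D a (y b)).det ^ m) = fun _ => 0 := by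
      funext D
      rw [zero_mul]
    change IsSec k K n Bd S m j _
    rw [h]
    exact sec_zero
  add_mem' := fun {a b} ha hb => by
    have h : (fun D : Fin n → Derivation k K K =>
        (a + b) * (Matrix.of fun a b => D a (y b)).det ^ m) = fun D =>
        (fun D : Fin n → Derivation k K K => a * (Matrix.of fun a b => D a (y b)).det ^ m) D +
        (fun D : Fin n → Derivation k K K => b * (Matrix.of fun a b => D a (y b)).det ^ m) D := by
      funext D
      rw [add_mul]
    change IsSec k K n Bd S m j _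
    rw [h]
    exact sec_add ha hb
  smul_mem' := fun c a ha => by
    have h : (fun D : Fin n → Derivation k K K =>
        (c • a) * (Matrix.of fun a b => D a (y b)).det ^ m) = fun D =>
        c • (fun D : Fin n → Derivation k K K => a * (Matrix.of fun a b => D a (y b)).det ^ m) D := by
      funext D
      rw [smul_mul_assoc]
    change IsSec k K n Bd S m j _
    rw [h]
    exact sec_smul c ha

theorem der_sum {L : Type*} [Field L] [Algebra k L] {ι : Type*} (s : Finset ι) (v : ι → L)
    (D : ι → Derivation k L L) (z : L) :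
    (∑ j ∈ s, v j • D j) z = ∑ j ∈ s, v j * D j z := by
  classical
  induction s using Finset.induction_on with
  | empty => simp
  | insert a s ha ih =>
    rw [Finset.sum_insert ha, Finset.sum_insert ha]
    change v a * D a z + (∑ j ∈ s, v j • D j) z = _
    rw [ih]

end dom

section frame

variable {k : Type*} {K : Type*} [Field k] [Field K] [Algebra k K] [CharZero k] {n : ℕ}

/-- Values of a pluricanonical form in terms of its value at a dual frame. -/
theorem eval (x : Fin n → K) (hx : IsTranscendenceBasis k x) (E : Fin n → Derivation k K K)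
    (hE : ∀ i j, E j (x i) = if i = j then 1 else 0) {m : ℕ}
    {ω : (Fin n → Derivation k K K) → K} (hω : IsPluriForm k K n m ω)
    (D : Fin n → Derivation k K K) :
    ω D = (Matrix.of fun i j => D i (x j)).det ^ m * ω E := by
  classical
  have h := hω (Matrix.of fun i j => D i (x j)) E
  rw [← h]
  refine congrArg ω ?_
  funext i
  have h1 : ∀ f, (D i - ∑ j, (Matrix.of fun i j => D i (x j)) i j • E j) f = 0 := by
    refine der_zero (K := K) (L := K) _ x hx fun l => ?_
    rw [Derivation.sub_apply, der_sum]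
    simp only [Matrix.of_apply, hE, mul_ite, mul_one, mul_zero, Finset.sum_ite_eq,
      Finset.mem_univ, if_true, sub_self]
  ext f
  have h2 := h1 f
  rw [Derivation.sub_apply] at h2
  exact sub_eq_zero.1 h2

theorem det_dual (x : Fin n → K) (E : Fin n → Derivation k K K)
    (hE : ∀ i j, E j (x i) = if i = j then 1 else 0) :
    (Matrix.of fun i j => E i (x j)).det = 1 := by
  have h : (Matrix.of fun i j => E i (x j)) = (1 : Matrix (Fin n) (Fin n) K) := by
    ext i j
    rw [Matrix.of_apply, hE, Matrix.one_apply]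
    by_cases hij : i = j
    · rw [if_pos hij, if_pos hij.symm]
    · rw [if_neg hij, if_neg (fun h => hij h.symm)]
  rw [h, Matrix.det_one]

/-- The space of the coefficients has the expected dimension. -/
theorem finrank_VV (Bd : Place k K → Prop) (S : Finset K) (m j : ℕ) (y : Fin n → K)
    (hy : IsTranscendenceBasis k y) (B : ℕ)
    (h : ∀ N, HasIndep k K n N (IsSec k K n Bd S m j) → N ≤ B) :
    Module.Finite k (VV k Bd S m j y) ∧ Module.finrank k (VV k Bd S m j y) ≤ B := by
  classical
  choose E hE using fun j => exists_dual y hy j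
  have hdet := det_dual y E (fun i j => hE j i)
  have h1 : Module.rank k (VV k Bd S m j y) ≤ B := by
    refine rank_le fun s hs => ?_
    refine h _ ?_
    let e : Fin s.card ≃ s := s.equivFin.symm
    refine ⟨fun l D => (((e l : VV k Bd S m j y)) : K) *
      (Matrix.of fun a b => D a (y b)).det ^ m, ?_, fun l => ((e l : VV k Bd S m j y)).2⟩
    have h2 : LinearIndependent k (fun l => (e l : VV k Bd S m j y)) :=
      hs.comp e e.injective
    rw [Fintype.linearIndependent_iff] at h2 ⊢
    intro g hg
    refine h2 g ?_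
    have h3 := congrFun hg E
    rw [Finset.sum_apply] at h3
    simp only [Pi.smul_apply, Pi.zero_apply, hdet, one_pow, mul_one] at h3
    apply Subtype.ext
    rw [AddSubmonoidClass.coe_finsetSum]
    exact h3
  have h2 : Module.rank k (VV k Bd S m j y) < Cardinal.aleph0 :=
    h1.trans_lt (Cardinal.natCast_lt_aleph0)
  have h3 : Module.Finite k (VV k Bd S m j y) := Module.rank_lt_aleph0_iff.1 h2
  refine ⟨h3, ?_⟩
  rw [← Module.finrank_eq_rank] at h1
  exact_mod_cast h1

end frame

section basis

variable {k : Type v} {L : Type u} [Field k] [CharZero k] [Field L] [Algebra k L]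

theorem exists_basis (M : IntermediateField k L) (d : ℕ) (hd : Algebra.trdeg k M = d) :
    ∃ y : Fin d → M, IsTranscendenceBasis k y := by
  obtain ⟨ι, z, hz⟩ := exists_isTranscendenceBasis' k M
  have h1 := hz.cardinalMk_eq_trdeg
  rw [hd] at h1
  have h2 : Cardinal.lift.{0} (Cardinal.mk ι) = Cardinal.lift.{u} (Cardinal.mk (Fin d)) := by
    rw [h1]
    simp
  obtain ⟨e⟩ := Cardinal.lift_mk_eq'.1 h2
  exact ⟨z ∘ e.symm, (isTranscendenceBasis_equiv e.symm).2 hz⟩

theorem basis_cons (M F : IntermediateField k L) [IsFF k F] (d : ℕ)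
    (hL : Algebra.trdeg k L = (d + 1 : ℕ)) (hsup : M ⊔ F = ⊤) (y : Fin d → M)
    (hy : IsTranscendenceBasis k y) (t : F) (ht : Transcendental k t) :
    IsTranscendenceBasis k (Fin.cons (t : L) (fun i => (y i : L)) : Fin (d + 1) → L) := by
  let x : Fin (d + 1) → L := Fin.cons (t : L) (fun i => (y i : L))
  let S : IntermediateField k L := adjoin k (Set.range x)
  have htS : (t : L) ∈ S := subset_adjoin k _ ⟨0, rfl⟩
  have hyS : ∀ i, (y i : L) ∈ S := fun i => subset_adjoin k _ ⟨i.succ, rfl⟩
  have hle : M ⊔ F ≤ (algebraicClosure S L).restrictScalars k := by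
    rw [sup_le_iff]
    constructor
    · intro z hz
      rw [mem_restrictScalars, mem_algebraicClosure_iff]
      have halg := hy.isAlgebraic
      have h1 := halg.isAlgebraic (⟨z, hz⟩ : M)
      have h2 : Algebra.adjoin k (Set.range y) ≤ (S.comap M.val).toSubalgebra := by
        rw [Algebra.adjoin_le_iff]
        rintro _ ⟨i, rfl⟩
        exact hyS i
      let f : Algebra.adjoin k (Set.range y) →+* S :=
        ((M.val : M →+* L).comp (algebraMap (Algebra.adjoin k (Set.range y)) M)).codRestrict S
          fun a => h2 a.2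
      have hf : Function.Injective f := by
        intro a b hab
        have h3 : ((a : M) : L) = ((b : M) : L) := congrArg (fun c : S => (c : L)) hab
        exact Subtype.ext (Subtype.ext h3)
      exact h1.ringHom_of_comp_eq f (M.val : M →+* L) hf (by ext a; rfl)
    · intro z hz
      rw [mem_restrictScalars, mem_algebraicClosure_iff]
      exact alg_of_mem F ht S htS ⟨z, hz⟩
  have h1 : Algebra.IsAlgebraic (Algebra.adjoin k (Set.range x)) L :=
    alg_adjoin fun z => by
      have h2 : z ∈ (algebraicClosure S L).restrictScalars k := hle (by rw [hsup]; trivial)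
      rwa [mem_restrictScalars, mem_algebraicClosure_iff] at h2
  refine Algebra.IsAlgebraic.isTranscendenceBasis_of_lift_le_trdeg_of_finite k _ ?_
  rw [hL]
  simp

end basis

/-- The main estimate. -/
theorem key (h1 : S_FIB.{u, v}) (h2 : S_DESC.{u, v}) (k : Type v) (L : Type u) [Field k]
    [CharZero k] [IsAlgClosed k] [Field L] [Algebra k L] (M F : IntermediateField k L) [IsFF k F]
    (d a : ℕ) (hM : Algebra.trdeg k M = d) (hL : Algebra.trdeg k L = (d + 1 : ℕ))
    (hsup : M ⊔ F = ⊤) (hnum : NumLe k M d (fun _ => False) a) (S : Finset L) :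
    ∃ A0 C : ℕ, ∀ m N : ℕ, 1 ≤ m →
      HasIndep k L (d + 1) N (IsSec k L (d + 1) (fun _ => False) S m 1) →
      N ≤ (max 0 (m * canDeg k F + A0)).toNat * (C * m ^ a) := by
  classical
  obtain ⟨y, hy⟩ := exists_basis M d hM
  obtain ⟨t, ht⟩ := IsFF.exists_transcendental (k := k) (K := F)
  have hx := basis_cons M F d hL hsup y hy t ht
  choose E hE using fun j => exists_dual (Fin.cons (t : L) (fun i => (y i : L)) : Fin (d + 1) → L)
    hx j
  have hE0t : E 0 (t : L) = 1 := by
    have h := hE 0 0
    rw [Fin.cons_zero, if_pos rfl] at h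
    exact h
  have hE0M : ∀ μ : M, E 0 (μ : L) = 0 := by
    intro μ
    refine der_zero (K := M) (L := L) ((E 0).compAlgebraMap M) y hy (fun i => ?_) μ
    change E 0 (y i : L) = 0
    have h := hE 0 i.succ
    rw [Fin.cons_succ, if_neg (Fin.succ_ne_zero i)] at h
    exact h
  have hEy : ∀ l j : Fin d, E l.succ (y j : L) = if l = j then 1 else 0 := by
    intro l j
    have h := hE l.succ j.succ
    rw [Fin.cons_succ] at h
    rw [h]
    by_cases hlj : l = j
    · rw [if_pos hlj, if_pos (by rw [hlj])]
    · rw [if_neg hlj, if_neg (fun h => hlj (Fin.succ_injective _ h).symm)]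
  have hEF : ∀ l : Fin d, ∀ β : F, E l.succ (β : L) = 0 := by
    intro l β
    obtain ⟨r, -, hr2⟩ := ratio' (K := L) ht β
    have h3 := hr2 (E l.succ)
    change E l.succ (β : L) = (r : L) * E l.succ (t : L) at h3
    have h4 := hE l.succ 0
    rw [Fin.cons_zero, if_neg (Fin.succ_ne_zero l).symm] at h4
    rw [h3, h4, mul_zero]
  obtain ⟨b0, A0, hb0, hW⟩ := h1 k L M F d hM hL hsup y hy t ht E hE0M hE0t hEF hEy S
  obtain ⟨S', hS'⟩ := h2 k L M F d hM hL hsup y hy t ht E hE0M hE0t hEF hEy S b0 hb0
  obtain ⟨C, hC⟩ := hnum S'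
  refine ⟨A0, C, fun m N hm hN => ?_⟩
  obtain ⟨ω, hω, hsec⟩ := hN
  obtain ⟨W, hWfin, hWr, hWmem⟩ := hW m
  obtain ⟨hV, hVr⟩ := finrank_VV (fun _ => False) S' m 1 y hy (C * m ^ a) (fun N hN => hC m N hm hN)
  let b := Module.finBasis k W
  have hspan : Submodule.span M ((fun β : F => (β : L)) '' (W : Set F)) ≤
      Submodule.span M (Set.range fun i => ((b i : F) : L)) := by
    rw [Submodule.span_le]
    rintro _ ⟨β, hβ, rfl⟩
    have h3 := b.sum_repr ⟨β, hβ⟩
    have h4 : (β : L) = ∑ i, (algebraMap k M (b.repr ⟨β, hβ⟩ i)) • ((b i : F) : L) := by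
      have h5 := congrArg (fun z : W => (((z : F)) : L)) h3
      change ((((∑ i, b.repr ⟨β, hβ⟩ i • b i : W)) : F) : L) = (β : L) at h5
      rw [← h5, AddSubmonoidClass.coe_finsetSum, AddSubmonoidClass.coe_finsetSum]
      refine Finset.sum_congr rfl fun i _ => ?_
      rw [algebraMap_smul]
      rfl
    change (β : L) ∈ _
    rw [h4]
    exact Submodule.sum_mem _ fun i _ => Submodule.smul_mem _ _ (Submodule.subset_span ⟨i, rfl⟩)
  have hμ : ∀ l, ∃ μ : Fin (Module.finrank k W) → M,
      b0 * ω l E = ∑ i, ((b i : F) : L) * (μ i : L) := by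
    intro l
    obtain ⟨c, hc⟩ := (Submodule.mem_span_range_iff_exists_fun M).1 (hspan (hWmem (ω l) (hsec l)))
    refine ⟨c, ?_⟩
    rw [← hc]
    refine Finset.sum_congr rfl fun i _ => ?_
    rw [mul_comm]
    rfl
  choose μ hμ using hμ
  have hbli : LinearIndependent k (fun i => (b i : F)) :=
    b.linearIndependent.map' W.subtype (Submodule.ker_subtype W)
  have hmem : ∀ l i, μ l i ∈ VV k (fun _ => False) S' m 1 y := fun l i =>
    hS' m (ω l) (hsec l) _ _ (μ l) hbli (hμ l) i
  let T : Fin N → (Fin (Module.finrank k W) → VV k (fun _ => False) S' m 1 y) :=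
    fun l i => ⟨μ l i, hmem l i⟩
  have hT : LinearIndependent k T := by
    rw [Fintype.linearIndependent_iff] at hω ⊢
    intro g hg
    refine hω g ?_
    have h3 : ∀ i, ∑ l, g l • μ l i = 0 := by
      intro i
      have h4 := congrFun hg i
      rw [Finset.sum_apply] at h4
      have h5 := congrArg (fun z : VV k (fun _ => False) S' m 1 y => (z : M)) h4
      change ((∑ l, (g l • T l) i : VV k (fun _ => False) S' m 1 y) : M) = 0 at h5
      rw [AddSubmonoidClass.coe_finsetSum] at h5
      exact h5
    have h4 : b0 * ∑ l, g l • ω l E = 0 := by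
      rw [Finset.mul_sum]
      have h5 : ∀ l, b0 * (g l • ω l E) = ∑ i, ((b i : F) : L) * ((g l • μ l i : M) : L) := by
        intro l
        rw [mul_smul_comm, hμ l, Finset.smul_sum]
        refine Finset.sum_congr rfl fun i _ => ?_
        rw [← mul_smul_comm]
        rfl
      rw [Finset.sum_congr rfl fun l _ => h5 l, Finset.sum_comm]
      refine Finset.sum_eq_zero fun i _ => ?_
      rw [← Finset.mul_sum, ← AddSubmonoidClass.coe_finsetSum, h3 i]
      exact mul_zero _
    have h6 : ∑ l, g l • ω l E = 0 := (mul_eq_zero.1 h4).resolve_left hb0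
    funext D
    rw [Finset.sum_apply]
    simp only [Pi.smul_apply, Pi.zero_apply]
    calc ∑ l, g l • ω l D = (Matrix.of fun i j => D i ((Fin.cons (t : L) (fun i => (y i : L)) :
          Fin (d + 1) → L) j)).det ^ m * ∑ l, g l • ω l E := by
          rw [Finset.mul_sum]
          refine Finset.sum_congr rfl fun l _ => ?_
          rw [eval _ hx E (fun i j => hE j i) (hsec l).1 D, mul_smul_comm]
      _ = 0 := by rw [h6, mul_zero]
  have h5 := hT.fintype_card_le_finrank
  rw [Fintype.card_fin, Module.finrank_pi_fintype] at h5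
  rw [Finset.sum_const, Finset.card_univ, Fintype.card_fin, smul_eq_mul] at h5
  refine h5.trans (Nat.mul_le_mul ?_ hVr)
  have h6 := Int.toNat_le_toNat hWr
  rw [Int.toNat_natCast] at h6
  exact h6

theorem main (h1 : S_FIB.{u, v}) (h2 : S_DESC.{u, v}) : S_ONE.{u, v} := by
  intro k L _ _ _ _ _ M F _ d a hM hL hsup _ hdeg hnum
  refine ⟨fun hdeg0 S => ?_, fun S => ?_⟩
  · obtain ⟨A0, C, h⟩ := key h1 h2 k L M F d a hM hL hsup hnum S
    refine ⟨A0 * C, fun m N hm hN => ?_⟩
    refine (h m N hm hN).trans (le_of_eq ?_)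
    rw [hdeg0, mul_zero, zero_add, max_eq_right (Int.natCast_nonneg A0), Int.toNat_natCast,
      mul_assoc]
  · obtain ⟨A0, C, h⟩ := key h1 h2 k L M F d a hM hL hsup hnum S
    obtain ⟨c, hc⟩ := Int.eq_ofNat_of_zero_le hdeg
    refine ⟨(c + A0) * C, fun m N hm hN => ?_⟩
    refine (h m N hm hN).trans ?_
    have h3 : (max 0 ((m : ℤ) * canDeg k F + A0)).toNat = m * c + A0 := by
      rw [hc, max_eq_right (by positivity)]
      have h4 : (m : ℤ) * (c : ℤ) + (A0 : ℤ) = ((m * c + A0 : ℕ) : ℤ) := by push_cast; ring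
      rw [h4, Int.toNat_natCast]
    rw [h3]
    have h4 : m * c + A0 ≤ m * (c + A0) := by
      rw [mul_add]
      exact Nat.add_le_add_left (Nat.le_mul_of_pos_left _ hm) _
    calc (m * c + A0) * (C * m ^ a) ≤ (m * (c + A0)) * (C * m ^ a) :=
          Nat.mul_le_mul_right _ h4
      _ = (c + A0) * C * m ^ (a + 1) := by ring

end Pool.Agent.W460.PG.ONE
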