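import Pool.Agent.W619.Y.Stm7
import Pool.Agent.W140.PG.REG2
import Pool.Agent.W409.PG.REGLOG2

/-! Regularity at a place of the quotient, with boundary (part REG3 of project PG). -/

set_option autoImplicit false
set_option linter.overlappingInstances false
set_option linter.unusedSectionVars false

universe u v

open Algebra FF IntermediateField Pool.Agent.W619.PQ Pool.Agent.W619.PL Pool.Agent.W619.TW
  Pool.Agent.W603.LV Pool.Agent.W619.Y

namespace Pool.Agent.W460.PG.REG3

open Pool.Agent.W140.PG.REG2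

open scoped Classical in
/-- The estimate for logarithmic vector fields. -/
theorem logcore (k : Type v) (L : Type u) [Field k] [CharZero k] [IsAlgClosed k]
    [Field L] [Algebra k L] (d n : ℕ) (F : Fin n → IntermediateField k L) [∀ i, IsFF k (F i)]
    (G : Subgroup (L ≃ₐ[k] L)) [Finite G] (σ : G →* Equiv.Perm (Fin n))
    (hF : ∀ (g : G) i, ∀ z ∈ F i, (g : L ≃ₐ[k] L) z ∈ F (σ g i))
    (x : Fin n → L) (hxQ : ∀ i, x i ∈ Quo G σ F i) (hxt : ∀ i, Transcendental k (x i))
    (w : Place k L) (m : ℕ) (b : Fin n → L) (hbQ : ∀ i, b i ∈ Quo G σ F i)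
    (hlog : ∀ i, LogPl (Quo G σ F i) m (x i) (b i) w)
    (y : Fin d → L) (a : L) (hY : YGood d m w y a)
    (D : Fin (d + n) → Derivation k L L) (hDlog : ∀ j, ∀ z, w.Reg (D j z / z)) :
    Ge w 0 (a * (∏ i, b i) *
      (Matrix.of fun i j => D j ((Fin.append y x : Fin (d + n) → L) i)).det ^ m) := by
  obtain ⟨Z, y0, hy0, hyD, hyZ⟩ := hY
  have hx0 : ∀ i, x i ≠ 0 := fun i h4 => hxt i (by rw [h4]; exact isAlgebraic_zero)
  have hquo : ∀ i, ∀ z ∈ Quo G σ F i, z ∈ F i := fun i z hz => (IntermediateField.mem_inf.1 hz).1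
  let U : Set (Fin n) := {i | ∃ z ∈ F i, w.ord z ≠ 0}
  have hnU : ∀ i, i ∉ U → ∀ z ∈ F i, w.ord z = 0 := by
    intro i hi z hz
    by_contra hcon
    exact hi ⟨z, hz, hcon⟩
  have huex : ∀ i, ∃ u : L, u ∈ Quo G σ F i ∧
      (i ∈ U → Pool.Agent.W391.PG.REGLOG.IsUnif w (Quo G σ F i) u) ∧ (i ∉ U → u = 1) := by
    intro i
    by_cases hi : i ∈ U
    · obtain ⟨a, ha, ha'⟩ := Pool.Agent.W391.PG.REGLOG.exists_unif w _
        (Pool.Agent.W391.PG.REGLOG.exists_quo G σ F hF i w hi)
      exact ⟨a, ha, fun _ => ha', fun h4 => absurd hi h4⟩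
    · exact ⟨1, one_mem _, fun h4 => absurd h4 hi, fun _ => rfl⟩
  choose u hu1 huU hu01 using huex
  have hu0 : ∀ i, u i ≠ 0 := by
    intro i h4
    by_cases hi : i ∈ U
    · have h5 := (huU i hi).1
      rw [h4, w.ord_zero] at h5
      omega
    · rw [hu01 i hi] at h4
      exact one_ne_zero h4
  -- the coordinates
  let z : Fin n → L := fun i => if i ∈ U then u i else x i
  have hzU : ∀ i ∈ U, z i = u i := fun i hi => if_pos hi
  have hznU : ∀ i, i ∉ U → z i = x i := fun i hi => if_neg hi
  have hρ : ∀ i, ∃ ρ : L, (∀ δ : Derivation k L L, δ (x i) = ρ * δ (z i)) ∧ (i ∉ U → ρ = 1) := by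
    intro i
    by_cases hi : i ∈ U
    · have h4 : Transcendental k (⟨u i, hquo i _ (hu1 i)⟩ : F i) := by
        have h5 : Transcendental k (u i) :=
          w.transcendental_of_ord_ne (by have := (huU i hi).1; omega)
        intro h6
        exact h5 (h6.algebraMap (A := L))
      obtain ⟨r, -, hr⟩ := ratio' (K := L) h4 (⟨x i, hquo i _ (hxQ i)⟩ : F i)
      refine ⟨r, fun δ => ?_, fun h5 => absurd hi h5⟩
      rw [hzU i hi]
      exact hr δ
    · exact ⟨1, fun δ => by rw [hznU i hi, one_mul], fun _ => rfl⟩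
  choose ρ hρ1 hρ2 using hρ
  let M : Matrix (Fin (d + n)) (Fin (d + n)) L := Matrix.of fun i j =>
    (Fin.append (fun c => D j (y0 c)) (fun i => D j (z i) / u i) : Fin (d + n) → L) i
  have hM1 : ∀ c j, M (Fin.castAdd n c) j = D j (y0 c) := by
    intro c j
    simp only [M, Matrix.of_apply, Fin.append_left]
  have hM2 : ∀ i j, M (Fin.natAdd d i) j = D j (z i) / u i := by
    intro i j
    simp only [M, Matrix.of_apply, Fin.append_right]
  have hdet : (Matrix.of fun i j => D j ((Fin.append y x : Fin (d + n) → L) i)).det =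
      Z.det * (∏ i, ρ i * u i) * M.det := by
    apply Pool.Agent.W409.PG.REGLOG2.det_block
    · intro l j
      rw [Matrix.of_apply, Fin.append_left, hyD]
      refine Finset.sum_congr rfl fun s _ => ?_
      rw [hM1]
    · intro i j
      rw [Matrix.of_apply, Fin.append_right, hM2, hρ1 i (D j), mul_assoc,
        mul_div_cancel₀ _ (hu0 i)]
  have hM : ∀ i j, Ge w 0 (M i j) := by
    intro i j
    refine Fin.addCases (fun c => ?_) (fun i => ?_) i
    · rw [hM1]
      by_cases h4 : y0 c = 0
      · left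
        rw [h4, map_zero]
      · have h5 : Ge w 0 (D j (y0 c) / y0 c) := hDlog j (y0 c)
        have h6 := h5.mul (hy0 c : Ge w 0 (y0 c))
        rwa [div_mul_cancel₀ _ h4, add_zero] at h6
    · rw [hM2]
      by_cases hi : i ∈ U
      · rw [hzU i hi]
        exact hDlog j (u i)
      · rw [hznU i hi, hu01 i hi, div_one]
        have h4 : Ge w 0 (D j (x i) / x i) := hDlog j (x i)
        have h5 : Ge w 0 (x i) := Or.inr (hnU i hi _ (hquo i _ (hxQ i))).ge
        have h6 := h4.mul h5
        rwa [div_mul_cancel₀ _ (hx0 i), add_zero] at h6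
  have hβ : ∀ i, Ge w 0 (b i * (ρ i * u i) ^ m) := by
    intro i
    right
    by_cases hi : i ∈ U
    · refine hlog i (u i) (hu1 i) (huU i hi).1 (huU i hi).2 (ρ i) fun δ => ?_
      rw [← hzU i hi]
      exact hρ1 i δ
    · rw [hρ2 i hi, hu01 i hi, one_mul, one_pow, mul_one]
      exact (hnU i hi _ (hquo i _ (hbQ i))).ge
  have hprod : a * (∏ i, b i) *
      (Matrix.of fun i j => D j ((Fin.append y x : Fin (d + n) → L) i)).det ^ m =
      ((a * Z.det ^ m) * ∏ i, b i * (ρ i * u i) ^ m) * M.det ^ m := by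
    have hp : (∏ i, b i * (ρ i * u i) ^ m) = (∏ i, b i) * (∏ i, ρ i * u i) ^ m := by
      rw [Finset.prod_mul_distrib (f := b), Finset.prod_pow]
    rw [hdet, hp]
    ring
  rw [hprod]
  have h1 : Ge w 0 (∏ i, b i * (ρ i * u i) ^ m) := by
    have := Ge.prod (P := w) Finset.univ (fun i => b i * (ρ i * u i) ^ m) (fun _ => 0)
      fun i _ => hβ i
    simpa using this
  have h2 := (hyZ.mul h1).mul ((ge_det w M hM).pow m)
  simpa using h2

theorem core (h1 : S_PRES.{u, v}) (h2 : S_LOG.{u, v}) (h3 : S_EXT.{u, v})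
    (h4 : S_REGLOG3.{u, v})
    (k : Type v) (L : Type u) [Field k] [CharZero k] [IsAlgClosed k]
    [Field L] [Algebra k L] (d n : ℕ) (F : Fin n → IntermediateField k L) [∀ i, IsFF k (F i)]
    (G : Subgroup (L ≃ₐ[k] L)) [Finite G] (σ : G →* Equiv.Perm (Fin n))
    (htr : Algebra.trdeg k L = (d + n : ℕ))
    (hF : ∀ (g : G) i, ∀ z ∈ F i, (g : L ≃ₐ[k] L) z ∈ F (σ g i))
    (N : ℕ) (hN : 2 ≤ N) (hfree : FreeIn N G σ F)
    (x : Fin n → L) (hxQ : ∀ i, x i ∈ Quo G σ F i) (hxt : ∀ i, Transcendental k (x i))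
    (hxg : ∀ (g : G) i, (g : L ≃ₐ[k] L) (x i) = x (σ g i))
    (v : Place k (fixedField G)) (w : Place k L) (e : ℕ) (hwv : Over w v e)
    (h : G) (ζ : k) (hord : orderOf h = e) (hζ : IsPrimitiveRoot ζ e)
    (hgen : ∀ z : L, z ≠ 0 → Ge w (w.ord z + 1)
        ((h : L ≃ₐ[k] L) z - algebraMap k L (ζ ^ (w.ord z)) * z))
    (m : ℕ) (b : Fin n → L) (hbQ : ∀ i, b i ∈ Quo G σ F i) (hb0 : ∀ i, b i ≠ 0)
    (hgood : ∀ i, GoodPl (Quo G σ F i) N m (x i) (b i) w)
    (y : Fin d → L) (a : L) (hY : YGood d m w y a)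
    (D : Fin (d + n) → Derivation k (fixedField G) (fixedField G))
    (D' : Fin (d + n) → Derivation k L L)
    (hD : ∀ j, Pres v (D j)) (hDD : ∀ j (f : fixedField G), D' j (f : L) = (D j f : L)) :
    Ge w 0 (a * (∏ i, b i) *
      (Matrix.of fun i j => D' j ((Fin.append y x : Fin (d + n) → L) i)).det ^ m) := by
  classical
  have hGal : IsGaloisGroup G (fixedField G) L := isGaloisGroup_fixed G
  have hfd : FiniteDimensional (fixedField G) L :=
    IsGaloisGroup.finiteDimensional G (fixedField G) L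
  have halg : Algebra.IsAlgebraic (fixedField G) L := inferInstance
  have htrK : Algebra.trdeg k (fixedField G) = (d + n : ℕ) := by
    have h5 := trdeg_add_eq k (fixedField G) (A := L)
    rw [trdeg_eq_zero (R := fixedField G) (A := L), add_zero] at h5
    rw [h5, htr]
  have hcomm : ∀ (E : Derivation k (fixedField G) (fixedField G)) (E' : Derivation k L L),
      (∀ f : fixedField G, E' (f : L) = (E f : L)) →
      ∀ (g : G) z, (g : L ≃ₐ[k] L) (E' z) = E' ((g : L ≃ₐ[k] L) z) := by
    intro E E' hE g z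
    obtain ⟨E0, hE0, huniq, hg⟩ := h3 k (fixedField G) L (d + n) htrK E
    have h5 : E' = E0 := huniq E' hE
    rw [h5]
    exact hg g (fun f => f.2 g) z
  by_cases hcase : e = 1 ∧ ∀ i, ∀ z ∈ F i, w.ord z = 0
  · obtain ⟨he, htriv⟩ := hcase
    have hpres : ∀ j, ∀ z : L, w.Reg z → w.Reg (D' j z) := by
      intro j
      refine h1 k (fixedField G) L v w e hwv (D' j) ?_ (Or.inl he)
      intro f hf
      have h5 : D' j (algebraMap (fixedField G) L f) = algebraMap (fixedField G) L (D j f) :=
        hDD j f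
      rw [h5]
      exact hwv.reg.2 (hD j f hf)
    obtain ⟨Z, z, hz, hZ, hZa⟩ := hY
    rw [det_append D' y z x Z hZ]
    have h6 : Ge w 0 (Matrix.of fun i j => D' j ((Fin.append z x : Fin (d + n) → L) i)).det := by
      apply ge_det
      intro i j
      apply hpres
      induction i using Fin.addCases with
      | left i => rw [Fin.append_left]; exact hz i
      | right i => rw [Fin.append_right]; exact Or.inr (htriv i _ (hxQ i).1).ge
    have h7 : Ge w 0 (∏ i, b i) := by
      have := Ge.prod (P := w) Finset.univ b (fun _ => 0) fun i _ =>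
        (Or.inr (htriv i _ (hbQ i).1).ge : Ge w 0 (b i))
      simpa using this
    have h8 := (hZa.mul h7).mul (h6.pow m)
    have h9 : a * (∏ i, b i) * (Z.det *
        (Matrix.of fun i j => D' j ((Fin.append z x : Fin (d + n) → L) i)).det) ^ m =
        a * Z.det ^ m * (∏ i, b i) *
        (Matrix.of fun i j => D' j ((Fin.append z x : Fin (d + n) → L) i)).det ^ m := by
      rw [mul_pow]; ring
    rw [h9]
    simpa using h8
  have hne : e = 1 → ∃ i, ∃ z ∈ F i, w.ord z ≠ 0 := by
    intro he
    by_contra hcon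
    push Not at hcon
    exact hcase ⟨he, hcon⟩
  obtain ⟨s, hs0, hs⟩ := v.surj
  have hsL : algebraMap (fixedField G) L s ≠ 0 := by simpa using hs0
  have hlogcase : ∀ (E : Fin (d + n) → Derivation k (fixedField G) (fixedField G))
      (E' : Fin (d + n) → Derivation k L L), (∀ j, Pres v (E j)) →
      (∀ j (f : fixedField G), E' j (f : L) = (E j f : L)) →
      (∀ j, v.Reg (E j s / s)) → Ge w (m * e) (a * (∏ i, b i) *
        (Matrix.of fun i j => E' j ((Fin.append y x : Fin (d + n) → L) i)).det ^ m) := by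
    intro E E' hE hEE hEs
    refine h4 k L d n F G σ hF N m e hN hfree w h ζ hord hζ hgen hne y a hY x b hxQ hxt hxg
      hbQ hb0 hgood E' ?_ ?_
    · intro j
      refine h2 k (fixedField G) L v w e hwv (E' j) ?_
      intro f
      have h5 : v.Reg (E j f / f) := log_of_pres v (E j) (hE j) hs0 hs (hEs j) f
      have h6 : E' j (algebraMap (fixedField G) L f) / algebraMap (fixedField G) L f =
          algebraMap (fixedField G) L (E j f / f) := by
        rw [map_div₀]
        congr 1
        exact hEE j f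
      rw [h6]
      exact hwv.reg.2 h5
    · intro j z
      exact hcomm (E j) (E' j) (hEE j) h z
  by_cases hlog : ∀ j, v.Reg (D j s / s)
  · exact (hlogcase D D' hD hDD hlog).mono (by positivity)
  push Not at hlog
  obtain ⟨j0, hj0⟩ := hlog
  have h5 : v.Reg (D j0 s) := hD j0 s (Or.inr (by omega))
  have h6 : D j0 s ≠ 0 := by
    intro h6
    apply hj0
    left
    rw [h6, zero_div]
  have h7 : v.ord (D j0 s) = 0 := by
    have h8 : 0 ≤ v.ord (D j0 s) := h5.resolve_left h6
    by_contra h9
    apply hj0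
    right
    rw [v.ord_div h6 hs0, hs]
    omega
  let c : Fin (d + n) → fixedField G := fun j => if j = j0 then 0 else -(D j s / D j0 s)
  let u : Fin (d + n) → fixedField G := fun j => if j = j0 then s else 1
  let E : Fin (d + n) → Derivation k (fixedField G) (fixedField G) := fun j =>
    u j • (D j + c j • D j0)
  let E' : Fin (d + n) → Derivation k L L := fun j =>
    (u j : L) • (D' j + (c j : L) • D' j0)
  have hinv : Ge v 0 (D j0 s)⁻¹ := Or.inr (by rw [v.ord_inv, h7]; simp)
  have hc : ∀ j, Ge v 0 (c j) := by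
    intro j
    by_cases hj : j = j0
    · left; simp [c, hj]
    · simp only [c, hj, if_false]
      have h8 : Ge v 0 (D j s) := hD j s (Or.inr (by omega))
      rw [div_eq_mul_inv]
      simpa using (h8.mul hinv).neg
  have hu : ∀ j, Ge v 0 (u j) := by
    intro j
    by_cases hj : j = j0
    · simp only [u, hj, if_true]; exact Or.inr (by omega)
    · simp only [u, hj, if_false]; exact Ge.one
  have hE : ∀ j, Pres v (E j) := by
    intro j f hf
    change Ge v 0 (u j * (D j f + c j * D j0 f))
    have h8 : Ge v 0 (D j f) := hD j f hf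
    have h9 : Ge v 0 (D j0 f) := hD j0 f hf
    have h10 := (hc j).mul h9
    rw [add_zero] at h10
    simpa using (hu j).mul (h8.add h10)
  have hEE : ∀ j (f : fixedField G), E' j (f : L) = (E j f : L) := by
    intro j f
    change (u j : L) * (D' j (f : L) + (c j : L) * D' j0 (f : L)) = _
    rw [hDD, hDD]
    rfl
  have hEs : ∀ j, v.Reg (E j s / s) := by
    intro j
    change v.Reg (u j * (D j s + c j * D j0 s) / s)
    by_cases hj : j = j0
    · have h8 : u j * (D j s + c j * D j0 s) / s = D j0 s := by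
        simp only [u, c, hj, if_true, zero_mul, add_zero]
        field_simp
      rw [h8]
      exact h5
    · have h8 : u j * (D j s + c j * D j0 s) / s = 0 := by
        simp only [u, c, hj, if_false]
        field_simp
        ring
      rw [h8]
      exact Or.inl rfl
  have hdet : (Matrix.of fun i j => E' j ((Fin.append y x : Fin (d + n) → L) i)).det =
      (s : L) * (Matrix.of fun i j => D' j ((Fin.append y x : Fin (d + n) → L) i)).det := by
    have h8 := det_change D' (Fin.append y x : Fin (d + n) → L) j0 (fun j => (c j : L))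
      (fun j => (u j : L)) (by simp [c])
    have h9 : ∏ j, (u j : L) = (s : L) := by
      have h10 : ∀ j, (u j : L) = if j = j0 then (s : L) else 1 := by
        intro j
        simp only [u]
        split_ifs <;> rfl
      rw [Finset.prod_congr rfl fun j _ => h10 j]
      simp
    rw [h9] at h8
    exact h8
  have h10 := hlogcase E E' hE hEE hEs
  rw [hdet] at h10
  have h11 : a * (∏ i, b i) *
      ((s : L) * (Matrix.of fun i j => D' j ((Fin.append y x : Fin (d + n) → L) i)).det) ^ m =
      (s : L) ^ m * (a * (∏ i, b i) *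
        (Matrix.of fun i j => D' j ((Fin.append y x : Fin (d + n) → L) i)).det ^ m) := by
    rw [mul_pow]; ring
  rw [h11] at h10
  have hsL' : (s : L) ≠ 0 := hsL
  have hsord : w.ord (s : L) = e := by
    have h12 := hwv.2 s
    rw [hs, mul_one] at h12
    exact h12
  refine Ge.of_mul' (P := w) (N := 0) (m := m * e) (pow_ne_zero m hsL') ?_ ?_
  · rw [w.ord_pow, hsord]
  · rw [zero_add]; exact h10

theorem main (h1 : S_PRES.{u, v}) (h2 : S_LOG.{u, v}) (h3 : S_EXT.{u, v})
    (h4 : S_REGLOG3.{u, v}) : S_REG3.{u, v} := by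
  intro k L _ _ _ _ _ d n F _ G _ σ htr hF N hN hfree x hxQ hxt hxg v hv
  obtain ⟨w, e, I, hwv, hIe, hI⟩ := exists_inertia G v
  obtain ⟨g0, hgI, hgord, ζ, hζ, hgen⟩ := exists_rot_generator w I hI
  rw [hIe] at hgord hζ
  rw [Subgroup.orderOf_coe] at hgord
  refine ⟨w, e, hwv, ?_⟩
  intro m b hbQ hb0 y a hY D D' hDD
  refine ⟨fun hgood hD g => ?_, fun hlog hD g => ?_⟩
  · rw [← ge_comp]
    have hwv' := over_comp hwv g
    have hdiv : IsDivisorial (w.comp (g : L ≃ₐ[k] L)) (d + n) := div_up hwv' hv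
    refine core h1 h2 h3 h4 k L d n F G σ htr hF N hN hfree x hxQ hxt hxg v
      (w.comp (g : L ≃ₐ[k] L)) e hwv' (g⁻¹ * g0 * g) ζ ?_ hζ ?_ m b hbQ hb0
      (fun i => hgood i _ e hwv') y a (hY _ hdiv) D D' hD hDD
    · rw [← hgord]
      have h5 : g⁻¹ * g0 * g = MulAut.conj g⁻¹ g0 := by
        rw [MulAut.conj_apply, inv_inv]
      rw [h5]
      exact MulEquiv.orderOf_eq (MulAut.conj g⁻¹) g0
    · intro z hz
      rw [ge_comp, Place.comp_ord, map_sub, map_mul, AlgEquiv.commutes]
      have h5 := hgen ((g : L ≃ₐ[k] L) z) (by simpa using hz)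
      have h6 : (g : L ≃ₐ[k] L) (((g⁻¹ * g0 * g : G) : L ≃ₐ[k] L) z) =
          (g0 : L ≃ₐ[k] L) ((g : L ≃ₐ[k] L) z) := by
        have h7 : (g : L ≃ₐ[k] L) * ((g⁻¹ * g0 * g : G) : L ≃ₐ[k] L) =
            (g0 : L ≃ₐ[k] L) * (g : L ≃ₐ[k] L) := by
          push_cast
          group
        exact congrArg (fun f : L ≃ₐ[k] L => f z) h7
      rw [h6]
      exact h5
  · rw [← ge_comp]
    have hwv' := over_comp hwv g
    have hdiv : IsDivisorial (w.comp (g : L ≃ₐ[k] L)) (d + n) := div_up hwv' hv
    have hGal : IsGaloisGroup G (fixedField G) L := isGaloisGroup_fixed G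
    have hfd : FiniteDimensional (fixedField G) L :=
      IsGaloisGroup.finiteDimensional G (fixedField G) L
    refine logcore k L d n F G σ hF x hxQ hxt (w.comp (g : L ≃ₐ[k] L)) m b hbQ
      (fun i => hlog i _ e hwv') y a (hY _ hdiv) D' fun j => ?_
    refine h2 k (fixedField G) L v (w.comp (g : L ≃ₐ[k] L)) e hwv' (D' j) ?_
    intro f
    have h6 : D' j (algebraMap (fixedField G) L f) / algebraMap (fixedField G) L f =
        algebraMap (fixedField G) L (D j f / f) := by
      rw [map_div₀]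
      congr 1
      exact hDD j f
    rw [h6]
    exact hwv'.reg.2 (hD j f)

end Pool.Agent.W460.PG.REG3
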